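import Mathlib
import Pool.Agent.TH202.FlFin
import Pool.Agent.TH202.FlSeq
import Pool.Agent.TH202.Neg
import Pool.Agent.TH246.C8_POS
import Pool.Agent.Y181.WLC

/-!
# Pseudo-effectivity, and absence of weak log canonical models, for the members of the sequence of
flips
-/

set_option autoImplicit false

namespace Pool.Agent.Y131.IF

open Pool.Agent.H436R3.Fol Pool.Agent.TH202 Pool.Agent.Y181 MvPolynomial
open Pool.Agent.TH89.FL_SMT (small_three L_eq_Th)

variable {K : Type} [Field K] [Algebra ℂ K]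

/-- a nef divisor on one model is pseudo-effective on every model -/
theorem psef_of_nef {X Y : Model K} {N : DVal K → ℝ} (hN : IsNef X N) : IsPsef Y N := by
  intro δ hδ
  obtain ⟨n, s, hs, hb⟩ := exists_bound Y X.ξ X.ne
  obtain ⟨F, hF, P, hP, h1⟩ := hN.2 (δ / (n + 1)) (by positivity)
  obtain ⟨Q, hQ, h2⟩ := Pool.Agent.TH246.C8_POS.SFree_eff hF
  refine ⟨Q - P + (δ / (n + 1)) • dv s + (δ / (n + 1)) • dv (Y.ξ 0),
    add_mem (add_mem (sub_mem hQ hP) ((Prin K).smul_mem _ (dv_mem hs)))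
      ((Prin K).smul_mem _ (dv_mem (Y.ne 0))), fun w _ => ?_⟩
  have h3 := h1 w
  have h4 := h2 w
  have h5 : X.H w ≤ n * Y.H w + (w.ord s : ℝ) := hb w
  have h6 : -(w.ord (Y.ξ 0) : ℝ) ≤ Y.H w := Lin_le Y.ξ w 0
  have hδ' : 0 < δ / (n + 1) := by positivity
  have h7 := mul_le_mul_of_nonneg_left h5 hδ'.le
  have h8 := mul_le_mul_of_nonneg_left h6 hδ'.le
  have h9 : δ = (δ / (n + 1)) * (n + 1) := by field_simp
  simp only [Pi.add_apply, Pi.sub_apply, Pi.smul_apply, smul_eq_mul, dv]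
  have h10 : δ * Y.H w = (δ / (n + 1)) * (n * Y.H w) + (δ / (n + 1)) * Y.H w := by
    nth_rewrite 1 [h9]
    ring
  rw [h10]
  nlinarith

variable [Algebra.EssFiniteType ℂ K]

theorem Dn_prime {d : Dat K} (h : XiAlg d) (s : Sq d) (hfil : FilV s) (k : ℕ) (hk : 1 ≤ k)
    (w : DVal K) (hw : IsPrimeOn (M3 s k hk) w) : Dn s k w = bet s w + pr d w := by
  obtain ⟨h1, h2⟩ := small_three h s hfil k hk w hw
  have e0 := L_eq_Th s hfil w h2 k (by omega)
  have e1 := L_eq_Th s hfil w h2 (k + 1) (by omega)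
  have e2 := L_eq_Th s hfil w h2 (k + 2) (by omega)
  simp only [Dn, Pi.add_apply, Pi.sub_apply, Pi.smul_apply, smul_eq_mul]
  rw [e0, e1, e2]
  ring

theorem psef_Dn {d : Dat K} (h : XiAlg d) (s : Sq d) (hfil : FilV s) (k : ℕ) (hk : 1 ≤ k) :
    IsPsef (M3 s k hk) (Dn s k) := by
  intro δ hδ
  obtain ⟨P, hP, h1⟩ := psef_of_nef (Y := M3 s k hk) (Pool.Agent.TH246.C8_POS.bet_nef h s) δ hδ
  refine ⟨P - pr d, sub_mem hP (pr_mem d), fun w hw => ?_⟩
  have h2 := h1 w hw
  rw [Dn_prime h s hfil k hk w hw, Pi.sub_apply]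
  linarith

theorem no_lc {d : Dat K} (h : XiAlg d) (s : Sq d) (hfil : FilV s) (T : Foliation K 3)
    (hT : IsPd d T) (k : ℕ) (hk : 1 ≤ k) (Y : Model K) (E : DVal K → ℝ) :
    ¬ IsWeakLCModel T (M3 s k hk) 0 (bt s) (Dn s k) Y E := by
  rintro ⟨hprime, hadj, hnef, hdisc⟩
  obtain ⟨vS, hvS, hvc, huniq⟩ := Pool.Agent.TH189.C8_VS.exists_vS d
  set X := Xd d h with hX
  set N : DVal K → ℝ := E - pr d with hN
  have hNnef : IsNef Y N := by
    refine ⟨hnef.1.sub (rcar_of_prin (pr_mem d)), fun δ hδ => ?_⟩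
    obtain ⟨F, hF, P, hP, hFP⟩ := hnef.2 δ hδ
    refine ⟨F, hF, P - pr d, (Prin K).sub_mem hP (pr_mem d), fun v => ?_⟩
    simp only [hN, Pi.sub_apply]
    linarith [hFP v]
  have hNY : ∀ w, IsPrimeOn Y w → N w = bet s w := by
    intro w hw
    obtain ⟨h1, h2⟩ := small_three h s hfil k hk w (hprime w hw)
    obtain ⟨⟨n, hn, h3⟩, -⟩ := Pool.Agent.TH796.C8_XM2.prime_X d h T hT w h1
    have h4 := hadj.2 w hw n hn
    have e3 := Pool.Agent.TH921.FL_GK.ps_sub (w.ord d.c)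
    have e4 : mn d w = ps (w.ord d.c) := by
      unfold Sb at h2
      linarith
    simp only [hN, Pi.sub_apply, h4, bt, pr, dv, Pi.add_apply, Pi.smul_apply, smul_eq_mul,
      Pi.zero_apply]
    rw [h3, e4]
    linear_combination (-(2 / 3) : ℝ) * e3
  have hbet := Pool.Agent.TH246.C8_POS.bet_nef h s
  obtain ⟨f0, f1, f2, fc⟩ := free_three s k hk
  have hNX : ∀ w, IsPrimeOn X w → Sb d w = 0 → N w ≤ bet s w := by
    intro w hw hS
    have hw3 : IsPrimeOn (M3 s k hk) w :=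
      Pool.Agent.TH828.FL_SMF.small_from h s hfil k hk f0 f1 fc w hw hS
    by_cases hwY : IsPrimeOn Y w
    · exact (hNY w hwY).le
    · have h1 := hdisc w hw3 hwY
      rw [Dn_prime h s hfil k hk w hw3] at h1
      simp only [hN, Pi.sub_apply]
      linarith
  have hge : ∀ v, bet s v ≤ N v := dom hbet hNnef.1 fun w hw => (hNY w hw).ge
  have hyS : ∀ j, vS.ord (s.y j) = 0 := s.triv vS hvS
  have hAkS : ∀ j, Ak s j vS = 0 := by
    intro j
    change Th s (j + 1) vS + Th s j vS = 0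
    rw [Pool.Agent.TH573.C8_NEFA.Th_eq, Pool.Agent.TH573.C8_NEFA.Th_eq, hyS, hyS]
    simp
  have hbetS : bet s vS = 0 := by
    change Ak s 2 vS - kap * Ak s 1 vS = 0
    rw [hAkS, hAkS]
    ring
  have haS : vS.ord d.a = 0 := by
    have := hvS.1 (MvPolynomial.X 0) (X_ne_zero _)
    rwa [aeval_X] at this
  have hSbS : Sb d vS = 1 := by
    have h1 : mn d vS = 0 := by
      rw [mn, haS, Int.cast_zero]
      exact max_eq_left (min_le_left _ _)
    rw [Sb, h1, hvc, ps]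
    simp
  have hSbR := rcar_Sb d h
  have hcase : ∀ w, IsPrimeOn X w → N w ≤ bet s w + N vS * Sb d w := by
    intro w hw
    by_cases h0 : Sb d w = 0
    · have h1 := hNX w hw h0
      rw [h0]
      linarith
    · have h1 := (Pool.Agent.TH796.C8_XM2.prime_X d h T hT w hw).2 h0
      have h2 := huniq w h1
      rw [rcar_congr hNnef.1 h2, rcar_congr hbet.1 h2, rcar_congr hSbR h2, hbetS, hSbS]
      linarith
  have hle := c_step h s vS hvS hvc huniq Y N hNnef (N vS) rfl hcase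
  have hge' := hge vS
  rw [hbetS] at hge'
  have hzero : N vS = 0 := le_antisymm hle hge'
  have hle' : ∀ v, N v ≤ bet s v := by
    refine dom hNnef hbet.1 fun w hw => ?_
    have := hcase w hw
    rw [hzero] at this
    linarith
  have hYS := b_step s vS hvS Y N hNnef.1 fun v => le_antisymm (hle' v) (hge v)
  obtain ⟨-, h2⟩ := small_three h s hfil k hk vS (hprime vS hYS)
  rw [hSbS] at h2
  norm_num at h2

end Pool.Agent.Y131.IF
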