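import Mathlib
import Pool.Agent.TH202.FlFin
import Pool.Agent.TH202.FlSeq

/-!
# The sequence of flips is a minimal model program with scaling

The scaling divisor is the hyperplane class of the first variety of the sequence.
-/

set_option autoImplicit false

namespace Pool.Agent.Y131.IF

open Pool.Agent.H436R3.Fol Pool.Agent.TH202 MvPolynomial Filter Topology
open Pool.Agent.TH573.C8_NEFA (kap_eq Ak_rel)
open Pool.Agent.TH89.FL_SMT (small_three L_eq_Th)

/-- the coefficients of the scaling divisor with respect to `L_k, L_{k+1}, L_{k+2}` -/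
def co : ℕ → ℝ × ℝ × ℝ
  | 0 => (1, 1, 1)
  | n + 1 => (2 * (co n).1 + (co n).2.1, 2 * (co n).1 + (co n).2.2, -(co n).1)

theorem co_pos (n : ℕ) : 1 ≤ (co n).1 ∧ 1 ≤ (co n).2.1 ∧ -(co n).1 ≤ (co n).2.2 := by
  induction n with
  | zero => simp only [co]; norm_num
  | succ n ih =>
    obtain ⟨h1, h2, h3⟩ := ih
    simp only [co]
    refine ⟨by linarith, by linarith, by linarith⟩

theorem co_mono (n : ℕ) : (co n).1 ≤ (co (n + 1)).1 := by
  obtain ⟨h1, h2, h3⟩ := co_pos n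
  simp only [co]
  linarith

/-- the scaling numbers -/
noncomputable def lam (n : ℕ) : ℝ := kap ^ (n + 3) / (co n).1

theorem lam_pos (n : ℕ) : 0 < lam n :=
  div_pos (pow_pos kap_pos _) (by linarith [(co_pos n).1])

theorem lam_lt (n : ℕ) : lam (n + 1) < lam n := by
  have h1 := (co_pos n).1
  have h2 := co_mono n
  have h3 : 0 < kap ^ (n + 3) := pow_pos kap_pos _
  have h4 : kap ^ (n + 1 + 3) < kap ^ (n + 3) := by
    have : kap ^ (n + 1 + 3) = kap ^ (n + 3) * kap := by ring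
    rw [this]
    nlinarith [kap_lt_one]
  unfold lam
  rw [div_lt_div_iff₀ (by linarith) (by linarith)]
  have h5 : 0 < kap ^ (n + 1 + 3) := pow_pos kap_pos _
  nlinarith

theorem lam_le (n : ℕ) : lam n ≤ kap ^ n := by
  have h1 := (co_pos n).1
  unfold lam
  rw [div_le_iff₀ (by linarith)]
  have h3 : kap ^ (n + 3) ≤ kap ^ n := pow_le_pow_of_le_one kap_pos.le kap_lt_one.le (by omega)
  have h4 : 0 < kap ^ n := pow_pos kap_pos _
  nlinarith

theorem lam_tendsto : Tendsto lam atTop (𝓝 0) := by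
  refine squeeze_zero (fun n => (lam_pos n).le) lam_le ?_
  exact tendsto_pow_atTop_nhds_zero_of_lt_one kap_pos.le kap_lt_one

theorem lam_mul (n : ℕ) : lam n * (co n).1 = kap ^ (n + 3) := by
  unfold lam
  have h1 := (co_pos n).1
  field_simp

variable {K : Type} [Field K] [Algebra ℂ K]

/-- the relation between the `Th` -/
theorem Th_rel' {d : Dat K} (s : Sq d) (k : ℕ) :
    Th s k - (2 : ℝ) • Th s (k + 1) - (2 : ℝ) • Th s (k + 2) + Th s (k + 3) ∈ Prin K := by
  have h := Ak_rel s k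
  have e : Ak s (k + 2) - (3 : ℝ) • Ak s (k + 1) + Ak s k =
      Th s k - (2 : ℝ) • Th s (k + 1) - (2 : ℝ) • Th s (k + 2) + Th s (k + 3) := by
    funext v
    simp only [Ak, Pi.add_apply, Pi.sub_apply, Pi.smul_apply, smul_eq_mul]
    have a1 : Th s (k + 2 + 1) v = Th s (k + 3) v := rfl
    have a2 : Th s (k + 1 + 1) v = Th s (k + 2) v := rfl
    rw [a1, a2]
    ring
  rw [← e]
  exact h

/-- the scaling divisor -/
noncomputable def An {d : Dat K} (s : Sq d) (n : ℕ) : DVal K → ℝ :=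
  (co n).1 • (Lk s (n + 3) - Th s (n + 3)) + (co n).2.1 • (Lk s (n + 4) - Th s (n + 4)) +
    (co n).2.2 • (Lk s (n + 5) - Th s (n + 5)) +
    (Th s 3 + Th s 4 + Th s 5 + Lin (e2 d))

theorem An_zero {d : Dat K} (s : Sq d) :
    An s 0 = Lk s 3 + Lk s 4 + Lk s 5 + Lin (e2 d) := by
  funext v
  simp only [An, co, Pi.add_apply, Pi.sub_apply, Pi.smul_apply, smul_eq_mul, Nat.zero_add]
  ring

/-- the principal part of the scaling divisor -/
theorem An_prin {d : Dat K} (s : Sq d) (n : ℕ) :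
    Th s 3 + Th s 4 + Th s 5 - ((co n).1 • Th s (n + 3) + (co n).2.1 • Th s (n + 4) +
      (co n).2.2 • Th s (n + 5)) ∈ Prin K := by
  induction n with
  | zero =>
    have e : Th s 3 + Th s 4 + Th s 5 - ((co 0).1 • Th s (0 + 3) + (co 0).2.1 • Th s (0 + 4) +
      (co 0).2.2 • Th s (0 + 5)) = 0 := by
      funext v
      simp only [co, Pi.add_apply, Pi.sub_apply, Pi.smul_apply, smul_eq_mul, Nat.zero_add,
        Pi.zero_apply]
      ring
    rw [e]
    exact zero_mem _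
  | succ n ih =>
    have h2 := add_mem ih ((Prin K).smul_mem (co n).1 (Th_rel' s (n + 3)))
    have e : Th s 3 + Th s 4 + Th s 5 - ((co (n + 1)).1 • Th s (n + 1 + 3) +
        (co (n + 1)).2.1 • Th s (n + 1 + 4) + (co (n + 1)).2.2 • Th s (n + 1 + 5)) =
        Th s 3 + Th s 4 + Th s 5 - ((co n).1 • Th s (n + 3) + (co n).2.1 • Th s (n + 4) +
      (co n).2.2 • Th s (n + 5)) + (co n).1 • (Th s (n + 3) - (2 : ℝ) • Th s (n + 3 + 1) -
        (2 : ℝ) • Th s (n + 3 + 2) + Th s (n + 3 + 3)) := by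
      funext v
      simp only [co, Pi.add_apply, Pi.sub_apply, Pi.smul_apply, smul_eq_mul]
      have a1 : Th s (n + 1 + 3) v = Th s (n + 4) v := by rw [show n + 1 + 3 = n + 4 by ring]
      have a2 : Th s (n + 1 + 4) v = Th s (n + 5) v := by rw [show n + 1 + 4 = n + 5 by ring]
      have a3 : Th s (n + 1 + 5) v = Th s (n + 6) v := by rw [show n + 1 + 5 = n + 6 by ring]
      have a4 : Th s (n + 3 + 1) v = Th s (n + 4) v := rfl
      have a5 : Th s (n + 3 + 2) v = Th s (n + 5) v := rfl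
      have a6 : Th s (n + 3 + 3) v = Th s (n + 6) v := rfl
      rw [a1, a2, a3, a4, a5, a6]
      ring
    rw [e]
    exact h2

theorem An_eq {d : Dat K} (s : Sq d) (n : ℕ) : ∃ P ∈ Prin K,
    An s n = (co n).1 • Lk s (n + 3) + (co n).2.1 • Lk s (n + 4) + (co n).2.2 • Lk s (n + 5) +
      Lin (e2 d) + P := by
  refine ⟨_, An_prin s n, ?_⟩
  funext v
  simp only [An, Pi.add_apply, Pi.sub_apply, Pi.smul_apply, smul_eq_mul]
  ring

theorem rcar_An {d : Dat K} (s : Sq d) (n : ℕ) : IsRCar (M3 s (n + 3) (by omega)) (An s n) := by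
  obtain ⟨f0, f1, f2, fc⟩ := free_three s (n + 3) (by omega)
  obtain ⟨P, hP, hA⟩ := An_eq s n
  rw [hA]
  exact ((((free_rcar f0).smul _).add ((free_rcar f1).smul _)).add
      ((free_rcar f2).smul _)).add (free_rcar fc) |>.add (rcar_of_prin hP)

theorem ample_An {d : Dat K} (s : Sq d) : IsAmple (M3 s 3 (by omega)) (An s 0) := by
  refine ⟨1 / 2, by norm_num, ?_⟩
  refine nef_of_comb s 3 (by omega) (P := 0) (zero_mem _) (a0 := 1 / 2) (a1 := 1 / 2)
    (a2 := 1 / 2) (a3 := 1 / 2) (by norm_num) (by norm_num) (by norm_num) (by norm_num) ?_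
  funext v
  rw [An_zero]
  simp only [Pi.sub_apply, Pi.add_apply, Pi.smul_apply, smul_eq_mul, H_three, Pi.zero_apply]
  ring

theorem nef_of_comb2 {d : Dat K} (s : Sq d) (k : ℕ) (hk : 1 ≤ k) {D P : DVal K → ℝ}
    (hP : P ∈ Prin K) {a1 a2 a3 : ℝ} (h1 : 0 ≤ a1) (h2 : 0 ≤ a2) (h3 : 0 ≤ a3)
    (hD : D = a1 • Lk s k + a2 • Lk s (k + 1) + a3 • Lin (e2 d) + P) :
    IsNef (M2 s k hk) D := by
  obtain ⟨f1, f2, fc⟩ := free_two s k hk
  constructor
  · rw [hD]
    exact ((((free_rcar f1).smul a1).add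
      ((free_rcar f2).smul a2)).add ((free_rcar fc).smul a3)).add (rcar_of_prin hP)
  · intro δ hδ
    refine ⟨a1 • Lk s k + a2 • Lk s (k + 1) + a3 • Lin (e2 d) +
      δ • (M2 s k hk).H, ?_, P, hP, fun v => ?_⟩
    · exact (SFree _).add_mem ((SFree _).add_mem ((SFree _).add_mem
        (sfree_smul (Lin_mem f1) h1) (sfree_smul (Lin_mem f2) h2))
        (sfree_smul (Lin_mem fc) h3)) (sfree_smul (Lin_mem (free_ξ _)) hδ.le)
    · rw [hD]
      simp only [Pi.add_apply, Pi.smul_apply, smul_eq_mul]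
      ring

variable [Algebra.EssFiniteType ℂ K]

/-- the divisor `D_n + λ_n A_n` is the pull-back of an ample divisor on the base of the flip -/
theorem ample_base {d : Dat K} (s : Sq d) (n : ℕ) :
    IsAmple (M2 s (n + 3 + 1) (by omega)) (Dn s (n + 3) + lam n • An s n) := by
  obtain ⟨P, hP, hD⟩ := Dn_eq s (n + 3) (by omega)
  obtain ⟨Q, hQ, hA⟩ := An_eq s n
  obtain ⟨h1, h2, h3⟩ := co_pos n
  have hl := lam_pos n
  have hlm := lam_mul n
  have hk1 := kap_pos
  have hk2 := kap_lt_one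
  have hk3 : 0 < kap ^ (n + 2) := pow_pos hk1 _
  have hk4 : kap ^ (n + 3) = kap ^ (n + 2) * kap := by ring
  have e1 : n + 3 - 1 = n + 2 := by omega
  rw [e1] at hD
  set B := kap ^ (n + 2) * (1 - kap) + lam n * (co n).2.1 with hB
  set C := kap ^ (n + 2) + lam n * (co n).2.2 with hC
  have hB0 : 0 < B := by
    have : 0 ≤ lam n * (co n).2.1 := mul_nonneg hl.le (by linarith)
    have h4 : 0 < kap ^ (n + 2) * (1 - kap) := mul_pos hk3 (by linarith)
    linarith
  have hC0 : 0 < C := by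
    have h4 : lam n * (-(co n).1) ≤ lam n * (co n).2.2 := mul_le_mul_of_nonneg_left h3 hl.le
    have h5 : kap ^ (n + 2) * kap < kap ^ (n + 2) := by nlinarith
    nlinarith
  obtain ⟨δ, hδ0, hδ1, hδ2, hδ3⟩ : ∃ δ : ℝ, 0 < δ ∧ δ ≤ B ∧ δ ≤ C ∧ δ ≤ lam n :=
    ⟨min B (min C (lam n)), lt_min hB0 (lt_min hC0 hl), min_le_left _ _,
      (min_le_right _ _).trans (min_le_left _ _), (min_le_right _ _).trans (min_le_right _ _)⟩
  refine ⟨δ, hδ0, ?_⟩
  refine nef_of_comb2 s (n + 3 + 1) (by omega) (P := P + lam n • Q)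
    ((Prin K).add_mem hP ((Prin K).smul_mem _ hQ)) (a1 := B - δ) (a2 := C - δ)
    (a3 := lam n - δ) (by linarith) (by linarith) (by linarith) ?_
  funext v
  rw [hD, hA]
  simp only [Pi.sub_apply, Pi.add_apply, Pi.smul_apply, smul_eq_mul, H_two]
  have a1 : Lk s (n + 3 + 1) v = Lk s (n + 4) v := rfl
  have a2 : Lk s (n + 3 + 2) v = Lk s (n + 5) v := rfl
  have a3 : Lk s (n + 3 + 1 + 1) v = Lk s (n + 5) v := rfl
  rw [a1, a2, a3, hB, hC]
  linear_combination (Lk s (n + 3) v) * hlm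

omit [Algebra.EssFiniteType ℂ K] in
/-- `D_n + λ_n A_n` does not change under the flip -/
theorem base_eq {d : Dat K} (s : Sq d) (n : ℕ) :
    Dn s (n + 3) + lam n • An s n = Dn s (n + 1 + 3) + lam n • An s (n + 1) := by
  have hlm := lam_mul n
  have hk := kap_eq
  have e1 : n + 3 - 1 = n + 2 := by omega
  have e2' : n + 1 + 3 - 1 = n + 3 := by omega
  funext v
  simp only [Dn, An, co, Pi.sub_apply, Pi.add_apply, Pi.smul_apply, smul_eq_mul, e1, e2']
  have a1 : Lk s (n + 3 + 1) v = Lk s (n + 4) v := rfl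
  have a2 : Lk s (n + 3 + 2) v = Lk s (n + 5) v := rfl
  have a3 : Lk s (n + 1 + 3) v = Lk s (n + 4) v := by rw [show n + 1 + 3 = n + 4 by ring]
  have a4 : Lk s (n + 1 + 3 + 1) v = Lk s (n + 5) v := by
    rw [show n + 1 + 3 + 1 = n + 5 by ring]
  have a5 : Lk s (n + 1 + 3 + 2) v = Lk s (n + 6) v := by
    rw [show n + 1 + 3 + 2 = n + 6 by ring]
  have a6 : Lk s (n + 1 + 4) v = Lk s (n + 5) v := by rw [show n + 1 + 4 = n + 5 by ring]
  have a7 : Lk s (n + 1 + 5) v = Lk s (n + 6) v := by rw [show n + 1 + 5 = n + 6 by ring]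
  have b1 : Th s (n + 3 + 1) v = Th s (n + 4) v := rfl
  have b2 : Th s (n + 3 + 2) v = Th s (n + 5) v := rfl
  have b3 : Th s (n + 1 + 3) v = Th s (n + 4) v := by rw [show n + 1 + 3 = n + 4 by ring]
  have b4 : Th s (n + 1 + 3 + 1) v = Th s (n + 5) v := by
    rw [show n + 1 + 3 + 1 = n + 5 by ring]
  have b5 : Th s (n + 1 + 3 + 2) v = Th s (n + 6) v := by
    rw [show n + 1 + 3 + 2 = n + 6 by ring]
  have b6 : Th s (n + 1 + 4) v = Th s (n + 5) v := by rw [show n + 1 + 4 = n + 5 by ring]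
  have b7 : Th s (n + 1 + 5) v = Th s (n + 6) v := by rw [show n + 1 + 5 = n + 6 by ring]
  rw [a1, a2, a3, a4, a5, a6, a7, b1, b2, b3, b4, b5, b6, b7]
  have hk4 : kap ^ (n + 3) = kap ^ (n + 2) * kap := by ring
  rw [hk4] at hlm ⊢
  linear_combination ((Lk s (n + 3) v - Th s (n + 3) v) - 2 * (Lk s (n + 4) v - Th s (n + 4) v)
    - 2 * (Lk s (n + 5) v - Th s (n + 5) v) + (Lk s (n + 6) v - Th s (n + 6) v)) * hlm
    - kap ^ (n + 2) * ((Lk s (n + 4) v - Th s (n + 4) v) +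
      (Lk s (n + 5) v - Th s (n + 5) v)) * hk

omit [Algebra.EssFiniteType ℂ K] in
theorem An_strict [Algebra.EssFiniteType ℂ K] {d : Dat K} (h : XiAlg d) (s : Sq d)
    (hfil : FilV s) (n : ℕ) (w : DVal K) (hw : IsPrimeOn (M3 s (n + 3) (by omega)) w) :
    An s n w = An s 0 w := by
  obtain ⟨h1, h2⟩ := small_three h s hfil (n + 3) (by omega) w hw
  have e0 := L_eq_Th s hfil w h2 (n + 3) (by omega)
  have e1 := L_eq_Th s hfil w h2 (n + 4) (by omega)
  have e2' := L_eq_Th s hfil w h2 (n + 5) (by omega)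
  have e3' := L_eq_Th s hfil w h2 3 (by omega)
  have e4 := L_eq_Th s hfil w h2 4 (by omega)
  have e5 := L_eq_Th s hfil w h2 5 (by omega)
  rw [An_zero]
  simp only [An, Pi.sub_apply, Pi.add_apply, Pi.smul_apply, smul_eq_mul]
  rw [e0, e1, e2', e3', e4, e5]
  ring

end Pool.Agent.Y131.IF
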