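import Mathlib
import Pool.Agent.Y131.IF.Sc
import Pool.Agent.Y131.IF.NoLC

/-!
# The nef thresholds
-/

set_option autoImplicit false

namespace Pool.Agent.Y131.IF

open Pool.Agent.H436R3.Fol Pool.Agent.TH202 MvPolynomial
open Pool.Agent.TH573.C8_NEFA (kap_eq)
open Pool.Agent.TH89.FL_SMT (small_three L_eq_Th)

variable {K : Type} [Field K] [Algebra ℂ K] [Algebra.EssFiniteType ℂ K]

/-- the divisor `D_n + λ_n A_n` is nef -/
theorem nef_lam {d : Dat K} (s : Sq d) (n : ℕ) :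
    IsNef (M3 s (n + 3) (by omega)) (Dn s (n + 3) + lam n • An s n) := by
  obtain ⟨P, hP, hD⟩ := Dn_eq s (n + 3) (by omega)
  obtain ⟨Q, hQ, hA⟩ := An_eq s n
  obtain ⟨h1, h2, h3⟩ := co_pos n
  have hl := lam_pos n
  have hlm := lam_mul n
  have hk1 := kap_pos
  have hk2 := kap_lt_one
  have hk3 : 0 < kap ^ (n + 2) := pow_pos hk1 _
  have hk4 : kap ^ (n + 3) = kap ^ (n + 2) * kap := by ring
  have e1 : n + 3 - 1 = n + 2 := by omega
  rw [e1] at hD
  set B := kap ^ (n + 2) * (1 - kap) + lam n * (co n).2.1 with hB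
  set C := kap ^ (n + 2) + lam n * (co n).2.2 with hC
  have hB0 : 0 < B := by
    have : 0 ≤ lam n * (co n).2.1 := mul_nonneg hl.le (by linarith)
    have h4 : 0 < kap ^ (n + 2) * (1 - kap) := mul_pos hk3 (by linarith)
    linarith
  have hC0 : 0 < C := by
    have h4 : lam n * (-(co n).1) ≤ lam n * (co n).2.2 := mul_le_mul_of_nonneg_left h3 hl.le
    have h5 : kap ^ (n + 2) * kap < kap ^ (n + 2) := by nlinarith
    nlinarith
  refine nef_of_comb s (n + 3) (by omega) (P := P + lam n • Q)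
    ((Prin K).add_mem hP ((Prin K).smul_mem _ hQ)) (a0 := 0) (a1 := B) (a2 := C)
    (a3 := lam n) le_rfl hB0.le hC0.le hl.le ?_
  funext v
  rw [hD, hA]
  simp only [Pi.add_apply, Pi.smul_apply, smul_eq_mul]
  have a1 : Lk s (n + 3 + 1) v = Lk s (n + 4) v := rfl
  have a2 : Lk s (n + 3 + 2) v = Lk s (n + 5) v := rfl
  rw [a1, a2, hB, hC]
  linear_combination (Lk s (n + 3) v) * hlm

theorem not_nef {d : Dat K} (h : XiAlg d) (s : Sq d) (hfil : FilV s) (n : ℕ) {t : ℝ}
    (ht : t < lam n) : ¬ IsNef (M3 s (n + 3) (by omega)) (Dn s (n + 3) + t • An s n) := by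
  intro hN
  obtain ⟨vS, hvS, hvc, huniq⟩ := Pool.Agent.TH189.C8_VS.exists_vS d
  have hR : IsRCar (M3 s (n + 1 + 3) (by omega)) (Dn s (n + 1 + 3) + t • An s (n + 1)) :=
    (Pool.Agent.TH921.FL_GK.rcar_Dn s (n + 1 + 3) (by omega)).add ((rcar_An s (n + 1)).smul t)
  have h1 := dom hN hR (fun w hw => by
    obtain ⟨hX, hS⟩ := small_three h s hfil (n + 1 + 3) (by omega) w hw
    obtain ⟨f0, f1, f2, fc⟩ := free_three s (n + 3) (by omega)
    have hw3 : IsPrimeOn (M3 s (n + 3) (by omega)) w :=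
      Pool.Agent.TH828.FL_SMF.small_from h s hfil (n + 3) (by omega) f0 f1 fc w hX hS
    simp only [Pi.add_apply, Pi.smul_apply, smul_eq_mul]
    rw [Dn_prime h s hfil _ _ w hw, Dn_prime h s hfil _ _ w hw3, An_strict h s hfil n w hw3,
      An_strict h s hfil (n + 1) w hw]) vS
  have h2 := congrFun (base_eq s n) vS
  simp only [Pi.add_apply, Pi.smul_apply, smul_eq_mul] at h1 h2
  -- values at the zero section
  have hyS : ∀ j, vS.ord (s.y j) = 0 := s.triv vS hvS
  have hTh : ∀ j, Th s j vS = 0 := by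
    intro j
    rw [Pool.Agent.TH573.C8_NEFA.Th_eq, hyS]
    simp
  have hL : ∀ j, Lk s j vS = 1 := by
    intro j
    apply le_antisymm
    · unfold Lk
      rw [Lin_le_iff]
      intro i
      fin_cases i
      · change -(vS.ord (1 : K) : ℝ) ≤ _
        rw [vS.ord_one]
        simp
      · change -(vS.ord (s.y j) : ℝ) ≤ _
        rw [hyS]
        simp
      · change -(vS.ord (d.c⁻¹) : ℝ) ≤ _
        rw [vS.ord_inv d.c_ne, hvc]
        simp
    · have h3 := Lin_le (e3 s j) vS 2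
      have h4 : (vS.ord (e3 s j 2) : ℝ) = -1 := by
        change (vS.ord (d.c⁻¹) : ℝ) = -1
        rw [vS.ord_inv d.c_ne, hvc]
        simp
      rw [h4, neg_neg] at h3
      exact h3
  have h3 : Dn s (n + 3) vS - Dn s (n + 1 + 3) vS = 2 * kap ^ (n + 2) * (1 - kap) ^ 2 := by
    have e1 : n + 3 - 1 = n + 2 := by omega
    have e2' : n + 1 + 3 - 1 = n + 3 := by omega
    simp only [Dn, Pi.sub_apply, Pi.add_apply, Pi.smul_apply, smul_eq_mul, e1, e2', hTh, hL]
    ring
  have h4 : 0 < Dn s (n + 3) vS - Dn s (n + 1 + 3) vS := by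
    rw [h3]
    have h5 : 0 < kap ^ (n + 2) := pow_pos kap_pos _
    have h6 : 0 < (1 - kap) ^ 2 := by
      have : 0 < 1 - kap := by linarith [kap_lt_one]
      positivity
    positivity
  have hl := lam_pos n
  -- `A_{n+1} - A_n` is positive at `vS`
  have h5 : 0 < An s (n + 1) vS - An s n vS := by
    by_contra hc
    push Not at hc
    have := mul_nonneg hl.le (neg_nonneg.2 hc)
    nlinarith
  have h6 := mul_pos (sub_pos.2 ht) h5
  nlinarith

theorem threshold {d : Dat K} (h : XiAlg d) (s : Sq d) (hfil : FilV s) (n : ℕ) :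
    IsLeast {t : ℝ | IsNef (M3 s (n + 3) (by omega)) (Dn s (n + 3) + t • An s n)} (lam n) := by
  refine ⟨nef_lam s n, fun t ht => ?_⟩
  by_contra hc
  exact not_nef h s hfil n (not_le.1 hc) ht

/-- the nef part `bet + pr` of the Zariski decomposition -/
theorem zar_nef {d : Dat K} (h : XiAlg d) (s : Sq d) : IsNef (Xd d h) (bet s + pr d) := by
  have hb := Pool.Agent.TH246.C8_POS.bet_nef h s
  refine ⟨hb.1.add (rcar_of_prin (pr_mem d)), fun δ hδ => ?_⟩
  obtain ⟨F, hF, P, hP, hFP⟩ := hb.2 δ hδ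
  refine ⟨F, hF, P + pr d, (Prin K).add_mem hP (pr_mem d), fun v => ?_⟩
  simp only [Pi.add_apply]
  linarith [hFP v]

theorem zar_le {d : Dat K} (h : XiAlg d) (s : Sq d) (hfil : FilV s) (k : ℕ) (hk : 1 ≤ k)
    (v : DVal K) : bet s v + pr d v ≤ Dn s k v :=
  dom (zar_nef h s) (Pool.Agent.TH921.FL_GK.rcar_Dn s k hk)
    (fun w hw => (Dn_prime h s hfil k hk w hw).ge) v

end Pool.Agent.Y131.IF
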